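import Pool.Agent.W455.EM.Stm

set_option autoImplicit false

namespace Pool.Agent.W962.EM.TP

open Finset

theorem main : Pool.Agent.W455.EM.S_TP := by
  classical
  intro V _ _ w F μ hw
  by_contra hcon
  push Not at hcon
  obtain ⟨h1, h2⟩ := hcon
  set m : ℝ := (Fintype.card V : ℝ) with hm
  have hmpos : 0 < m := by
    rw [hm]
    exact_mod_cast Fintype.card_pos
  set S := ∑ v, F v with hS
  let G : V → ℝ := fun v => F v * m - S
  have hG0 : ∑ v, G v = 0 := by
    simp only [G, Finset.sum_sub_distrib, ← Finset.sum_mul, Finset.sum_const, Finset.card_univ,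
      nsmul_eq_mul]
    rw [← hS, ← hm]
    ring
  let L : Finset V := univ.filter (fun v => w v < μ)
  let R : Finset V := univ.filter (fun v => μ < w v)
  let E : Finset V := univ.filter (fun v => w v = μ)
  have split : ∀ g : V → ℝ, ∑ v, g v = ∑ v ∈ L, g v + ∑ v ∈ R, g v + ∑ v ∈ E, g v := by
    intro g
    simp only [L, R, E, Finset.sum_filter]
    rw [← Finset.sum_add_distrib, ← Finset.sum_add_distrib]
    refine Finset.sum_congr rfl fun v _ => ?_
    rcases lt_trichotomy (w v) μ with h | h | h
    · simp [h, h.not_gt, h.ne]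
    · simp [h]
    · simp [h, h.not_gt, h.ne']
  have hc : ∑ y ∈ R, (w y - μ) = ∑ x ∈ L, (μ - w x) := by
    have h := split (fun v => w v - μ)
    have h0 : ∑ v, (w v - μ) = 0 := by
      rw [Finset.sum_sub_distrib, hw, Finset.sum_const, Finset.card_univ, nsmul_eq_mul]
      ring
    have hE : ∑ v ∈ E, (w v - μ) = 0 :=
      Finset.sum_eq_zero fun v hv => by rw [(Finset.mem_filter.1 hv).2, sub_self]
    have hL : ∑ v ∈ L, (w v - μ) = - ∑ v ∈ L, (μ - w v) := by
      rw [← Finset.sum_neg_distrib]
      exact Finset.sum_congr rfl fun v _ => by ring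
    linarith
  have pair : ∀ x ∈ L, ∀ y ∈ R, 0 < (w y - μ) * G x + (μ - w x) * G y := by
    intro x hx y hy
    have hx' := (Finset.mem_filter.1 hx).2
    have hy' := (Finset.mem_filter.1 hy).2
    have h := h2 x y hx' hy'
    have hd : 0 < w y - w x := by linarith
    rw [div_mul_eq_mul_div, lt_div_iff₀ hd] at h
    have he : (w y - μ) * G x + (μ - w x) * G y =
        ((w y - μ) * F x + (μ - w x) * F y) * m - S * (w y - w x) := by
      simp only [G]
      ring
    rw [he]
    linarith
  have hE0 : ∀ v ∈ E, 0 < G v := by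
    intro v hv
    have h := h1 v (Finset.mem_filter.1 hv).2
    show 0 < F v * m - S
    linarith
  have hEn : 0 ≤ ∑ v ∈ E, G v := Finset.sum_nonneg fun v hv => (hE0 v hv).le
  have hLp : ∀ v ∈ L, 0 < μ - w v := fun v hv => by
    have := (Finset.mem_filter.1 hv).2
    linarith
  have hRp : ∀ v ∈ R, 0 < w v - μ := fun v hv => by
    have := (Finset.mem_filter.1 hv).2
    linarith
  have htot := split G
  rw [hG0] at htot
  rcases L.eq_empty_or_nonempty with hLe | hLn
  · have hRe : R = ∅ := by
      by_contra hR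
      have h3 := Finset.sum_pos hRp (Finset.nonempty_iff_ne_empty.2 hR)
      rw [hc, hLe, Finset.sum_empty] at h3
      exact lt_irrefl _ h3
    rw [hLe, hRe, Finset.sum_empty, zero_add, zero_add] at htot
    obtain ⟨v⟩ := (inferInstance : Nonempty V)
    have hv : v ∈ E := by
      rcases lt_trichotomy (w v) μ with h | h | h
      · have : v ∈ L := Finset.mem_filter.2 ⟨Finset.mem_univ v, h⟩
        rw [hLe] at this
        exact absurd this (Finset.notMem_empty v)
      · exact Finset.mem_filter.2 ⟨Finset.mem_univ v, h⟩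
      · have : v ∈ R := Finset.mem_filter.2 ⟨Finset.mem_univ v, h⟩
        rw [hRe] at this
        exact absurd this (Finset.notMem_empty v)
    have h4 := Finset.sum_pos hE0 ⟨v, hv⟩
    linarith
  · have hcpos : 0 < ∑ x ∈ L, (μ - w x) := Finset.sum_pos hLp hLn
    have hRn : R.Nonempty := by
      rw [Finset.nonempty_iff_ne_empty]
      intro hR
      rw [← hc, hR, Finset.sum_empty] at hcpos
      exact lt_irrefl _ hcpos
    have hsum : 0 < ∑ x ∈ L, ∑ y ∈ R, ((w y - μ) * G x + (μ - w x) * G y) :=
      Finset.sum_pos (fun x hx => Finset.sum_pos (pair x hx) hRn) hLn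
    have heq : ∑ x ∈ L, ∑ y ∈ R, ((w y - μ) * G x + (μ - w x) * G y) =
        (∑ x ∈ L, (μ - w x)) * (∑ v ∈ L, G v + ∑ v ∈ R, G v) := by
      simp only [Finset.sum_add_distrib, ← Finset.sum_mul, ← Finset.mul_sum]
      rw [hc]
      ring
    rw [heq] at hsum
    have h5 : 0 < ∑ v ∈ L, G v + ∑ v ∈ R, G v := (pos_iff_pos_of_mul_pos hsum).1 hcpos
    linarith

end Pool.Agent.W962.EM.TP
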